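import Pool.Agent.helper59.BR.SpecH

/-! Row HFX of project BR (MP_baa4d7_al): a permutation of `p`-power order and weights. -/

set_option autoImplicit false

namespace Pool.Agent.BR

open Pool.Agent.helper58.DC Pool.Agent.DI Pool.Agent.GR Pool.Agent.OB Pool.Agent.DR Pool.Agent.FI Pool.Agent.FI3 Pool.Agent.FI4 Pool.Agent.LE

theorem HFX_card {p : ℕ} {M : Ideal (integralClosure ℤ ℂ)} (h : Setup p M) (A : Type) [Fintype A] (g : Function.End A) (N : ℕ)
    [Fintype (Function.fixedPoints g)]
    (hg : g ^ p ^ N = 1) : InM M ((Fintype.card A : ℂ) - (Fintype.card (Function.fixedPoints g) : ℂ)) := by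
  classical
  have : Fact p.Prime := ⟨h.pr⟩
  have h1 : Fintype.card A ≡ Fintype.card (Function.fixedPoints g) [MOD p] := by
    have h2 := Equiv.Perm.card_fixedPoints_modEq (f := g) (p := p) (n := N) hg
    simp only [← Nat.card_eq_fintype_card] at h2 ⊢
    exact h2
  obtain ⟨k, hk⟩ := (Nat.modEq_iff_dvd.1 h1.symm)
  have h3 : (Fintype.card A : ℂ) - (Fintype.card (Function.fixedPoints g) : ℂ) = (k : ℂ) * (p : ℂ) := by
    have h4 : ((Fintype.card A : ℤ) - (Fintype.card (Function.fixedPoints g) : ℤ) : ℤ) = k * (p : ℤ) := by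
      rw [hk, mul_comm]
    exact_mod_cast h4
  rw [h3]
  refine InM.mul_left h (IntAt.of_isIntegral h ?_) (InM.prime_mem h)
  have := isIntegral_algebraMap (R := ℤ) (A := ℂ) (x := k)
  simpa using this

theorem HFX : HFX_stmt := by
  classical
  intro p M h B _ f N hf w hw hwf
  have e1 : ∑ᶠ b ∈ {b | f b = b}, w b = ∑ b ∈ Finset.univ.filter (fun b => f b = b), w b := by
    have e2 : {b | f b = b} = ((Finset.univ.filter (fun b => f b = b) : Finset B) : Set B) := by
      ext b
      simp
    rw [e2, finsum_mem_coe_finset]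
  have m1 : ∀ b ∈ (Finset.univ : Finset B), w b ∈ Finset.univ.image w := fun b hb => Finset.mem_image_of_mem _ hb
  have m2 : ∀ b ∈ Finset.univ.filter (fun b => f b = b), w b ∈ Finset.univ.image w := fun b _ => m1 b (Finset.mem_univ b)
  rw [e1, ← Finset.sum_fiberwise_of_maps_to m1, ← Finset.sum_fiberwise_of_maps_to m2, ← Finset.sum_sub_distrib]
  refine InM.sum h _ fun c hc => ?_
  obtain ⟨b0, -, rfl⟩ := Finset.mem_image.1 hc
  have s1 : ∑ x ∈ Finset.univ.filter (fun x => w x = w b0), w x = ((Finset.univ.filter (fun x => w x = w b0)).card : ℂ) * w b0 := by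
    rw [Finset.sum_congr rfl (fun x hx => (Finset.mem_filter.1 hx).2), Finset.sum_const, nsmul_eq_mul]
  have s2 : ∑ x ∈ (Finset.univ.filter (fun b => f b = b)).filter (fun x => w x = w b0), w x =
      (((Finset.univ.filter (fun b => f b = b)).filter (fun x => w x = w b0)).card : ℂ) * w b0 := by
    rw [Finset.sum_congr rfl (fun x hx => (Finset.mem_filter.1 hx).2), Finset.sum_const, nsmul_eq_mul]
  rw [s1, s2, ← sub_mul]
  refine InM.mul_right h ?_ (hw b0)
  -- the permutation of the fibre
  obtain ⟨g, hg⟩ : ∃ g : Function.End {x : B // w x = w b0}, ∀ x, (g x).1 = f x.1 :=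
    ⟨fun x => ⟨f x.1, (hwf x.1).trans x.2⟩, fun x => rfl⟩
  have hpow : ∀ (n : ℕ) (x : {x : B // w x = w b0}), ((g ^ n) x).1 = (f ^ n) x.1 := by
    intro n
    induction n with
    | zero =>
      intro x
      rfl
    | succ n ih =>
      intro x
      rw [pow_succ, pow_succ]
      show ((g ^ n) (g x)).1 = (f ^ n) (f x.1)
      rw [ih (g x), hg]
  have hg1 : g ^ p ^ N = 1 := by
    funext x
    apply Subtype.ext
    rw [hpow, hf]
    rfl
  have h5 := HFX_card h {x : B // w x = w b0} g N hg1
  have c1 : Fintype.card {x : B // w x = w b0} = (Finset.univ.filter (fun x => w x = w b0)).card :=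
    Fintype.card_subtype _
  have c2 : Fintype.card (Function.fixedPoints g) = ((Finset.univ.filter (fun b => f b = b)).filter (fun x => w x = w b0)).card := by
    rw [Fintype.card_eq_nat_card, ← Fintype.card_coe, ← Nat.card_eq_fintype_card]
    refine Nat.card_congr ⟨fun x => ⟨x.1.1, ?_⟩, fun y => ⟨⟨y.1, ?_⟩, ?_⟩, fun x => rfl, fun y => rfl⟩
    · rw [Finset.mem_filter, Finset.mem_filter]
      refine ⟨⟨Finset.mem_univ _, ?_⟩, x.1.2⟩
      rw [← hg x.1]
      exact congrArg Subtype.val x.2
    · exact (Finset.mem_filter.1 y.2).2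
    · apply Subtype.ext
      rw [hg]
      exact (Finset.mem_filter.1 (Finset.mem_filter.1 y.2).1).2
  rw [c1, c2] at h5
  exact h5

end Pool.Agent.BR
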